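import Pool.Agent.Helper49_Pauli.Trial

/-!
# Module H2: the field energy of the trial state
-/

set_option linter.unusedSectionVars false

open MeasureTheory Complex ProbabilityTheory

namespace Pool.Agent.Helper49_Pauli

namespace ModH2

/-- nonnegative measurable functions with a bound for the integral -/
structure Mean {Ω : Type*} [MeasurableSpace Ω] (μ : Measure Ω) (f : Ω → ℝ) (m : ℝ) : Prop where
  nn : ∀ z, 0 ≤ f z
  ms : Measurable f
  mn : 0 ≤ m
  le : ∫⁻ z, ENNReal.ofReal (f z) ∂μ ≤ ENNReal.ofReal m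

section mean
variable {Ω : Type*} [MeasurableSpace Ω] {μ : Measure Ω} {f g : Ω → ℝ} {m n : ℝ}

lemma Mean.add (h : Mean μ f m) (h' : Mean μ g n) : Mean μ (fun z => f z + g z) (m + n) where
  nn z := add_nonneg (h.nn z) (h'.nn z)
  ms := h.ms.add h'.ms
  mn := add_nonneg h.mn h'.mn
  le := by
    have e : ∀ z, ENNReal.ofReal (f z + g z) = ENNReal.ofReal (f z) + ENNReal.ofReal (g z) :=
      fun z => ENNReal.ofReal_add (h.nn z) (h'.nn z)
    simp only [e]
    rw [lintegral_add_left h.ms.ennreal_ofReal, ENNReal.ofReal_add h.mn h'.mn]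
    exact add_le_add h.le h'.le

lemma Mean.smul {c : ℝ} (hc : 0 ≤ c) (h : Mean μ f m) : Mean μ (fun z => c * f z) (c * m) where
  nn z := mul_nonneg hc (h.nn z)
  ms := h.ms.const_mul c
  mn := mul_nonneg hc h.mn
  le := by
    have e : ∀ z, ENNReal.ofReal (c * f z) = ENNReal.ofReal c * ENNReal.ofReal (f z) :=
      fun z => ENNReal.ofReal_mul hc
    simp only [e]
    rw [lintegral_const_mul' _ _ ENNReal.ofReal_ne_top, ENNReal.ofReal_mul hc]
    gcongr
    exact h.le

lemma Mean.const [IsProbabilityMeasure μ] {c : ℝ} (hc : 0 ≤ c) : Mean μ (fun _ => c) c where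
  nn _ := hc
  ms := measurable_const
  mn := hc
  le := by simp

lemma Mean.sum {ι : Type*} {s : Finset ι} {f : ι → Ω → ℝ} {m : ι → ℝ}
    (h : ∀ i ∈ s, Mean μ (f i) (m i)) :
    Mean μ (fun z => ∑ i ∈ s, f i z) (∑ i ∈ s, m i) where
  nn z := Finset.sum_nonneg fun i hi => (h i hi).nn z
  ms := Finset.measurable_fun_sum s fun i hi => (h i hi).ms
  mn := Finset.sum_nonneg fun i hi => (h i hi).mn
  le := by
    have e : ∀ z, ENNReal.ofReal (∑ i ∈ s, f i z) = ∑ i ∈ s, ENNReal.ofReal (f i z) :=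
      fun z => ENNReal.ofReal_sum_of_nonneg fun i hi => (h i hi).nn z
    simp only [e]
    rw [lintegral_finsetSum' _ fun i hi => (h i hi).ms.ennreal_ofReal.aemeasurable,
      ENNReal.ofReal_sum_of_nonneg fun i hi => (h i hi).mn]
    exact Finset.sum_le_sum fun i hi => (h i hi).le

lemma Mean.congr (h : Mean μ f m) (h1 : ∀ z, g z = f z) (h2 : n = m) : Mean μ g n := by
  obtain rfl : g = f := funext h1
  subst h2
  exact h

end mean

lemma mean_of {f w : X3 → ℝ} (hf : Continuous f) (hc : HasCompactSupport f) (hn : ∀ x, 0 ≤ f x)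
    (hw : Continuous w) (hw1 : ∀ x, 1 ≤ w x) {j : ℕ} (hj : j ≤ 4) {B : ℝ}
    (hB : ∫ x, w x ^ 4 * f x ≤ B) : Mean volume (fun x => w x ^ j * f x) B := by
  have hi : ∀ j : ℕ, Integrable (fun x => w x ^ j * f x) := fun j =>
    ((hw.pow j).mul hf).integrable_of_hasCompactSupport hc.mul_left
  have hnn : ∀ (j : ℕ) x, 0 ≤ w x ^ j * f x := fun j x =>
    mul_nonneg (pow_nonneg (zero_le_one.trans (hw1 x)) j) (hn x)
  have hle : ∫ x, w x ^ j * f x ≤ B := by
    refine le_trans (integral_mono (hi j) (hi 4) fun x => ?_) hB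
    exact mul_le_mul_of_nonneg_right (pow_le_pow_right₀ (hw1 x) hj) (hn x)
  refine ⟨hnn j, ((hw.pow j).mul hf).measurable, le_trans (integral_nonneg (hnn j)) hle, ?_⟩
  rw [← ofReal_integral_eq_lintegral_ofReal (hi j) (Filter.Eventually.of_forall (hnn j))]
  exact ENNReal.ofReal_le_ofReal hle

lemma nsq_add_le (u v : S2) : nsq (u + v) ≤ 2 * nsq u + 2 * nsq v := by
  unfold nsq
  rw [Finset.mul_sum, Finset.mul_sum, ← Finset.sum_add_distrib]
  exact Finset.sum_le_sum fun s _ => norm_add_sq_le _ _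

variable {ι : Type} [Fintype ι] (p : Par ι)

/-- the pointwise bound for the field energy density -/
noncomputable def F (δ : ι → ℝ) (x : X3) : ℝ :=
  400 * p.a * p.t * (∑ i, sq (p.c i)) * (p.p0 x + p.t * p.p1 x) +
  ∑ i, p.om i * ((p.η i ^ 2 + (∑ j, p.K i j * δ j) ^ 2) *
    (2 * p.p0 x + 72 * p.a * p.p0 x * p.fsB δ x + 648 * p.a * p.p1 x * p.fsD δ x))

lemma om_nonneg (i : ι) : 0 ≤ p.om i := Real.sqrt_nonneg _

lemma nsq_wf_le [DecidableEq ι] (y : ι → ℝ) (x : X3) : nsq (wf p.u0 p.u y x) ≤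
    2 * p.p0 x + 72 * p.a * p.p0 x * p.fsB (fun i => y i - p.η i) x +
      648 * p.a * p.p1 x * p.fsD (fun i => y i - p.η i) x := by
  rw [p.wf_eq, nsq_smul', p.norm_ex, one_pow, one_mul]
  have h1 := nsq_add_le (p.phi x) (p.dl (fun i => y i - p.η i) x)
  have h2 := nsq_le (p.dl (fun i => y i - p.η i) x)
  have h3 := p.norm_dl_sq (fun i => y i - p.η i) x
  have h4 : p.p0 x = nsq (p.phi x) := rfl
  rw [← h4] at h1
  nlinarith

lemma pointwise [DecidableEq ι] (y : ι → ℝ) (x : X3) :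
    ∑ i, Real.sqrt (sq (p.k i)) *
      nsq (p.u i x + (ldq p.K p.η y i : ℂ) • wf p.u0 p.u y x) ≤
    F p (fun i => y i - p.η i) x := by
  set N : ℝ := 2 * p.p0 x + 72 * p.a * p.p0 x * p.fsB (fun i => y i - p.η i) x +
      648 * p.a * p.p1 x * p.fsD (fun i => y i - p.η i) x with hN
  have hN1 : nsq (wf p.u0 p.u y x) ≤ N := nsq_wf_le p y x
  have hN0 : 0 ≤ N := (nsq_nonneg _).trans hN1
  have h1 : ∀ i, Real.sqrt (sq (p.k i)) *
      nsq (p.u i x + (ldq p.K p.η y i : ℂ) • wf p.u0 p.u y x) ≤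
      2 * (p.om i * nsq (p.u i x)) +
        p.om i * ((p.η i ^ 2 + (∑ j, p.K i j * (y j - p.η j)) ^ 2) * N) := by
    intro i
    have h2 := nsq_add_le (p.u i x) ((ldq p.K p.η y i : ℂ) • wf p.u0 p.u y x)
    rw [nsq_smul', Complex.norm_real, Real.norm_eq_abs, sq_abs] at h2
    have h3 : 2 * ldq p.K p.η y i ^ 2 ≤ p.η i ^ 2 + (∑ j, p.K i j * (y j - p.η j)) ^ 2 := by
      unfold ldq
      nlinarith [sq_nonneg (p.η i + ∑ j, p.K i j * (y j - p.η j))]
    have h4 : 2 * (ldq p.K p.η y i ^ 2 * nsq (wf p.u0 p.u y x)) ≤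
        (p.η i ^ 2 + (∑ j, p.K i j * (y j - p.η j)) ^ 2) * N := by
      rw [← mul_assoc]
      exact mul_le_mul h3 hN1 (nsq_nonneg _) (by positivity)
    have h5 : nsq (p.u i x + (ldq p.K p.η y i : ℂ) • wf p.u0 p.u y x) ≤
        2 * nsq (p.u i x) + (p.η i ^ 2 + (∑ j, p.K i j * (y j - p.η j)) ^ 2) * N := by linarith
    have h6 := mul_le_mul_of_nonneg_left h5 (om_nonneg p i)
    refine h6.trans (le_of_eq ?_)
    ring
  refine (Finset.sum_le_sum fun i _ => h1 i).trans ?_
  rw [Finset.sum_add_distrib, ← Finset.mul_sum]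
  unfold F
  rw [← hN]
  have h7 := p.sum_om_u_le x
  have h8 : 2 * ∑ i, p.om i * nsq (p.u i x) ≤
      400 * p.a * p.t * (∑ i, sq (p.c i)) * (p.p0 x + p.t * p.p1 x) := by linarith
  linarith

lemma F_continuous (hC : ContStatement) :
    Continuous fun z : (ι → ℝ) × X3 => F p z.1 z.2 := by
  obtain ⟨-, -, hB, hD, -, -, -, hw, h0, h1, -⟩ := hC ι p
  have h0' : Continuous fun z : (ι → ℝ) × X3 => p.p0 z.2 := h0.comp continuous_snd
  have h1' : Continuous fun z : (ι → ℝ) × X3 => p.p1 z.2 := h1.comp continuous_snd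
  unfold F
  refine (continuous_const.mul (h0'.add (continuous_const.mul h1'))).add ?_
  refine continuous_finsetSum _ fun i _ => continuous_const.mul (Continuous.mul ?_ ?_)
  · refine continuous_const.add (Continuous.pow ?_ 2)
    refine continuous_finsetSum _ fun j _ => continuous_const.mul ?_
    exact (continuous_apply j).comp continuous_fst
  · exact ((continuous_const.mul h0').add ((continuous_const.mul h0').mul hB)).add
      ((continuous_const.mul h1').mul hD)

/-- the expectation of the bound, for fixed `x` -/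
noncomputable def RR (C : ℝ) (x : X3) : ℝ :=
  400 * p.a * p.t * (∑ i, sq (p.c i)) * (p.p0 x + p.t * p.p1 x) +
  (∑ i, p.om i * p.η i ^ 2 + ∑ i, p.om i * p.K i i) *
    (2 * p.p0 x + 72 * C * p.bB * (p.w x ^ 2 * p.p0 x) + 648 * C * p.bD * (p.w x ^ 2 * p.p1 x))

lemma Kii_nonneg (hK : KmatStatement) (i : ι) : 0 ≤ p.K i i := by
  classical
  obtain ⟨CK, -, hK⟩ := hK
  obtain ⟨-, hquad, hW, hWl, -, -⟩ := hK ι p
  have h1 := hquad (Pi.single i 1)
  have h2 : quad p.K (Pi.single i 1) = p.K i i := by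
    unfold quad
    rw [Finset.sum_eq_single i, Finset.sum_eq_single i]
    · simp
    · intro j _ hj; simp [Pi.single_eq_of_ne hj]
    · intro h; exact absurd (Finset.mem_univ _) h
    · intro j _ hj
      simp [Pi.single_eq_of_ne hj]
    · intro h; exact absurd (Finset.mem_univ _) h
  rw [← h2, h1]
  have := mul_nonneg p.hκ.le (hW (qof p.k (Pi.single i 1)))
  have := mul_nonneg p.hκ0.le (hWl (qof p.k (Pi.single i 1)))
  linarith

lemma fsB_nonneg (y : ι → ℝ) (x : X3) : 0 ≤ p.fsB y x := sB_nonneg _ _ _ _ _ _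
lemma fsD_nonneg (y : ι → ℝ) (x : X3) : 0 ≤ p.fsD y x := sD_nonneg _ _ _ _ _ _
lemma p0_nn (x : X3) : 0 ≤ p.p0 x := nsq_nonneg _
lemma p1_nn (x : X3) : 0 ≤ p.p1 x := Finset.sum_nonneg fun _ _ => nsq_nonneg _

end ModH2

open ModH2 in
/-- Module H2. -/
theorem h2 (hK : KmatStatement) (hM : MomStatement) (hC : ContStatement)
    (hg : GaussMomentStatement) : H2Statement := by
  obtain ⟨C, hC0, hM⟩ := hM
  refine ⟨1600 + 1296 * (1 + C), by positivity, ?_⟩
  intro ι _ _ p T Z C0 e hChg hGood hC0'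
  obtain ⟨hZ, hT, hchg⟩ := hChg
  obtain ⟨g0, g1, -, -⟩ := hGood
  have ht : 0 < p.t := lt_of_lt_of_le p.hτ p.hτt
  have ha := p.ha
  obtain ⟨-, -, cB, cD, -, -, -, cw, c0, c1, -, -, -, s0, s1, -⟩ := hC ι p
  have hF := F_continuous p hC
  have hsnn : 0 ≤ ∑ i, sq (p.c i) := Finset.sum_nonneg fun _ _ =>
    Finset.sum_nonneg fun _ _ => sq_nonneg _
  have hKd := Kii_nonneg p hK
  -- the map z ↦ T z as a function
  have hTc : Continuous fun z : EuclideanSpace ℝ ι => (fun i => T z i : ι → ℝ) := by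
    have h1 : Continuous T := T.continuous_of_finiteDimensional
    exact continuous_pi fun i => (continuous_apply i).comp
      ((PiLp.continuous_ofLp 2 _).comp h1)
  -- step 1: the pointwise bound and the change of variables
  set G : (ι → ℝ) → ENNReal := fun y => ∫⁻ x, ENNReal.ofReal (F p (fun i => y i - p.η i) x)
    with hGdef
  have hGm : Measurable G := by
    have h1 : Continuous fun z : (ι → ℝ) × X3 => F p (fun i => z.1 i - p.η i) z.2 := by
      refine hF.comp (f := fun z : (ι → ℝ) × X3 => ((fun i => z.1 i - p.η i : ι → ℝ), z.2)) ?_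
      fun_prop
    exact h1.measurable.ennreal_ofReal.lintegral_prod_right'
  have step1 : ∫⁻ y, ∫⁻ x, ENNReal.ofReal (squeezed p.K p.η (fun i => y i) ^ 2 *
        ∑ i, Real.sqrt (sq (p.k i)) *
          nsq (p.u i x + (ldq p.K p.η (fun i => y i) i : ℂ) • wf p.u0 p.u (fun i => y i) x))
        ∂volume ∂stdGaussian (EuclideanSpace ℝ ι) ≤
      ENNReal.ofReal Z * ∫⁻ z, ∫⁻ x, ENNReal.ofReal (F p (fun i => T z i) x)
        ∂volume ∂stdGaussian (EuclideanSpace ℝ ι) := by
    have h1 : ∀ z : EuclideanSpace ℝ ι, G (fun i => p.η i + T z i) =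
        ∫⁻ x, ENNReal.ofReal (F p (fun i => T z i) x) := by
      intro z
      simp only [hGdef, add_sub_cancel_left]
    have h2 := hchg G hGm
    simp only [h1] at h2
    rw [← h2]
    refine lintegral_mono fun y => ?_
    rw [hGdef]
    simp only
    rw [← lintegral_const_mul' _ _ ENNReal.ofReal_ne_top]
    refine lintegral_mono fun x => ?_
    rw [ENNReal.ofReal_mul (sq_nonneg _)]
    gcongr
    exact pointwise p (fun i => y i) x
  refine step1.trans ?_
  have hFT : Continuous fun z : EuclideanSpace ℝ ι × X3 => F p (fun i => T z.1 i) z.2 := by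
    refine hF.comp (f := fun z : EuclideanSpace ℝ ι × X3 =>
      ((fun i => T z.1 i : ι → ℝ), z.2)) ?_
    exact (hTc.comp continuous_fst).prodMk continuous_snd
  have hswap : ∫⁻ z, ∫⁻ x, ENNReal.ofReal (F p (fun i => T z i) x)
        ∂volume ∂stdGaussian (EuclideanSpace ℝ ι) =
      ∫⁻ x, ∫⁻ z, ENNReal.ofReal (F p (fun i => T z i) x)
        ∂stdGaussian (EuclideanSpace ℝ ι) ∂volume := by
    apply lintegral_lintegral_swap
    exact hFT.measurable.ennreal_ofReal.aemeasurable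
  rw [hswap, ENNReal.ofReal_mul hZ.le]
  gcongr
  -- step 2: the expectation for fixed `x`
  have step2 : ∀ x, Mean (stdGaussian (EuclideanSpace ℝ ι)) (fun z => F p (fun i => T z i) x)
      (RR p C x) := by
    intro x
    obtain ⟨-, -, mB, mD, -, -, ml⟩ := hM ι p T hT x
    have hp0 := p0_nn p x
    have hp1 := p1_nn p x
    have hw2 : 0 ≤ p.w x ^ 2 := sq_nonneg _
    have hki : 0 < p.κ⁻¹ := inv_pos.2 p.hκ
    have q1 : 0 < p.τ ^ (-(1 / 2) : ℝ) := Real.rpow_pos_of_pos p.hτ _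
    have q2 : 0 < p.t ^ ((1 / 2) : ℝ) := Real.rpow_pos_of_pos ht _
    have hBc : Continuous fun z : EuclideanSpace ℝ ι => p.fsB (fun i => T z i) x :=
      cB.comp (f := fun z : EuclideanSpace ℝ ι => ((fun i => T z i : ι → ℝ), x))
        (hTc.prodMk continuous_const)
    have hDc : Continuous fun z : EuclideanSpace ℝ ι => p.fsD (fun i => T z i) x :=
      cD.comp (f := fun z : EuclideanSpace ℝ ι => ((fun i => T z i : ι → ℝ), x))
        (hTc.prodMk continuous_const)
    have MB : Mean (stdGaussian (EuclideanSpace ℝ ι)) (fun z => p.fsB (fun i => T z i) x)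
        (C * p.κ⁻¹ * p.τ ^ (-(1 / 2) : ℝ) * p.w x ^ 2) :=
      ⟨fun z => fsB_nonneg p _ _, hBc.measurable, by positivity, mB⟩
    have MD : Mean (stdGaussian (EuclideanSpace ℝ ι)) (fun z => p.fsD (fun i => T z i) x)
        (C * p.κ⁻¹ * p.t ^ ((1 / 2) : ℝ) * p.w x ^ 2) :=
      ⟨fun z => fsD_nonneg p _ _, hDc.measurable, by positivity, mD⟩
    -- the linear forms
    set l : ι → (EuclideanSpace ℝ ι →ₗ[ℝ] ℝ) := fun i =>
      { toFun := fun z => ∑ j, p.K i j * T z j
        map_add' := fun z w => by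
          rw [← Finset.sum_add_distrib]
          refine Finset.sum_congr rfl fun j _ => ?_
          rw [map_add, PiLp.add_apply, mul_add]
        map_smul' := fun r z => by
          rw [RingHom.id_apply, smul_eq_mul, Finset.mul_sum]
          refine Finset.sum_congr rfl fun j _ => ?_
          rw [map_smul, PiLp.smul_apply, smul_eq_mul]
          ring } with hl
    have hlz : ∀ i z, l i z = ∑ j, p.K i j * T z j := fun i z => rfl
    have hlb : ∀ i z, l i z ^ 2 ≤ p.K i i * ‖z‖ ^ 2 := by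
      intro i z
      obtain ⟨CK, -, hK'⟩ := hK
      obtain ⟨-, hquad, hW, hWl, hrow, -⟩ := hK' ι p
      rw [hlz]
      refine (hrow i (fun j => T z j)).trans ?_
      refine mul_le_mul_of_nonneg_left ?_ (hKd i)
      have h1 := hT z
      have h3 := sq_nonneg ‖T z‖
      linarith
    have hlm : ∀ i, Measurable fun z => l i z ^ 2 := fun i => by
      have h : Continuous (l i) := (l i).continuous_of_finiteDimensional
      exact (h.pow 2).measurable
    have ML : ∀ i, Mean (stdGaussian (EuclideanSpace ℝ ι)) (fun z => l i z ^ 2) (p.K i i) :=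
      fun i => ⟨fun z => sq_nonneg _, hlm i, hKd i,
        (hg ι (l i) (l i) _ _ (hKd i) (hKd i) (hlb i) (hlb i)).2.1⟩
    have MLB : ∀ i, Mean (stdGaussian (EuclideanSpace ℝ ι))
        (fun z => l i z ^ 2 * p.fsB (fun i => T z i) x)
        (p.K i i * (C * p.κ⁻¹ * p.τ ^ (-(1 / 2) : ℝ) * p.w x ^ 2)) := fun i =>
      ⟨fun z => mul_nonneg (sq_nonneg _) (fsB_nonneg p _ _), (hlm i).mul hBc.measurable,
        by have := hKd i; positivity, (ml (l i) _ (hKd i) (hlb i)).1⟩
    have MLD : ∀ i, Mean (stdGaussian (EuclideanSpace ℝ ι))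
        (fun z => l i z ^ 2 * p.fsD (fun i => T z i) x)
        (p.K i i * (C * p.κ⁻¹ * p.t ^ ((1 / 2) : ℝ) * p.w x ^ 2)) := fun i =>
      ⟨fun z => mul_nonneg (sq_nonneg _) (fsD_nonneg p _ _), (hlm i).mul hDc.measurable,
        by have := hKd i; positivity, (ml (l i) _ (hKd i) (hlb i)).2⟩
    have M0 : Mean (stdGaussian (EuclideanSpace ℝ ι)) (fun _ =>
        400 * p.a * p.t * (∑ i, sq (p.c i)) * (p.p0 x + p.t * p.p1 x))
        (400 * p.a * p.t * (∑ i, sq (p.c i)) * (p.p0 x + p.t * p.p1 x)) :=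
      Mean.const (by positivity)
    have Mi : ∀ i, Mean (stdGaussian (EuclideanSpace ℝ ι)) _ _ := fun i =>
      ((((Mean.const (c := p.η i ^ 2 * (2 * p.p0 x)) (by positivity)).add
        (MB.smul (c := p.η i ^ 2 * (72 * p.a * p.p0 x)) (by positivity))).add
        (MD.smul (c := p.η i ^ 2 * (648 * p.a * p.p1 x)) (by positivity))).add
        ((((ML i).smul (c := 2 * p.p0 x) (by positivity)).add
        ((MLB i).smul (c := 72 * p.a * p.p0 x) (by positivity))).add
        ((MLD i).smul (c := 648 * p.a * p.p1 x) (by positivity)))).smul (om_nonneg p i)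
    have Mt := M0.add (Mean.sum (s := Finset.univ) fun i _ => Mi i)
    refine Mt.congr (fun z => ?_) ?_
    · unfold F
      congr 1
      refine Finset.sum_congr rfl fun i _ => ?_
      rw [hlz]
      ring
    · unfold RR
      congr 1
      rw [← Finset.sum_add_distrib, Finset.sum_mul]
      refine Finset.sum_congr rfl fun i _ => ?_
      unfold Par.bB Par.bD
      ring
  have step3 : ∫⁻ x, ∫⁻ z, ENNReal.ofReal (F p (fun i => T z i) x)
        ∂stdGaussian (EuclideanSpace ℝ ι) ∂volume ≤ ∫⁻ x, ENNReal.ofReal (RR p C x) :=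
    lintegral_mono fun x => (step2 x).le
  refine step3.trans ?_
  -- step 4: integration over `x`
  have hw1 : ∀ x, 1 ≤ p.w x := by
    intro x
    have : 0 ≤ sq x := Finset.sum_nonneg fun _ _ => sq_nonneg _
    have : 0 ≤ sq x / p.R ^ 2 := by positivity
    unfold Par.w
    linarith
  have hR := p.hR
  have hbB : 0 ≤ p.bB := by
    unfold Par.bB
    have := Real.rpow_nonneg p.hτ.le (-(1 / 2))
    have := inv_pos.2 p.hκ
    positivity
  have hbD : 0 ≤ p.bD := by
    unfold Par.bD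
    have := Real.rpow_nonneg ht.le (1 / 2)
    have := inv_pos.2 p.hκ
    positivity
  have hS : 0 ≤ ∑ i, p.om i * p.η i ^ 2 + ∑ i, p.om i * p.K i i :=
    add_nonneg (Finset.sum_nonneg fun i _ => mul_nonneg (om_nonneg p i) (sq_nonneg _))
      (Finset.sum_nonneg fun i _ => mul_nonneg (om_nonneg p i) (hKd i))
  have N0 := mean_of c0 s0 (p0_nn p) cw hw1 (j := 0) (by norm_num) g0
  have N1 := mean_of c1 s1 (p1_nn p) cw hw1 (j := 0) (by norm_num) g1
  have N02 := mean_of c0 s0 (p0_nn p) cw hw1 (j := 2) (by norm_num) g0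
  have N12 := mean_of c1 s1 (p1_nn p) cw hw1 (j := 2) (by norm_num) g1
  simp only [pow_zero, one_mul] at N0 N1
  set S : ℝ := ∑ i, p.om i * p.η i ^ 2 + ∑ i, p.om i * p.K i i with hSdef
  have NR := ((N0.add (N1.smul ht.le)).smul (c := 400 * p.a * p.t * (∑ i, sq (p.c i)))
    (by positivity)).add
    ((((N0.smul (c := 2) (by norm_num)).add (N02.smul (c := 72 * C * p.bB) (by positivity))).add
      (N12.smul (c := 648 * C * p.bD) (by positivity))).smul (c := S) hS)
  refine le_trans NR.le (ENNReal.ofReal_le_ofReal ?_)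
  have hRR : p.t * (C0 * p.R ^ (-2 : ℤ)) ≤ C0 := by
    have h1 : p.t * p.R ^ (-2 : ℤ) ≤ 1 := by
      rw [zpow_neg, ← div_eq_mul_inv, div_le_one (by positivity)]
      exact p.htR
    nlinarith
  have hR2 : 0 < p.R ^ (-2 : ℤ) := by positivity
  have k1 : 400 * p.a * p.t * (∑ i, sq (p.c i)) * (C0 + p.t * (C0 * p.R ^ (-2 : ℤ))) ≤
      400 * p.a * p.t * (∑ i, sq (p.c i)) * (2 * C0) := by
    gcongr
    linarith
  have k2 : 2 * C0 + 72 * C * p.bB * C0 + 648 * C * p.bD * (C0 * p.R ^ (-2 : ℤ)) ≤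
      (1296 * (1 + C)) * C0 * (1 + p.bB + p.bD * p.R ^ (-2 : ℤ)) := by
    have j1 : 0 ≤ C0 * p.bB := by positivity
    have j2 : 0 ≤ C0 * (p.bD * p.R ^ (-2 : ℤ)) := by positivity
    have j3 : 0 ≤ C * (C0 * p.bB) := by positivity
    have j4 : 0 ≤ C * (C0 * (p.bD * p.R ^ (-2 : ℤ))) := by positivity
    have j5 : 0 ≤ C * C0 := by positivity
    nlinarith
  have k3 := mul_le_mul_of_nonneg_left k2 hS
  have j6 : 0 ≤ C0 * (p.a * p.t * (∑ i, sq (p.c i))) := by positivity
  have j7 : 0 ≤ C0 * (S * (1 + p.bB + p.bD * p.R ^ (-2 : ℤ))) := by positivity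
  calc _ ≤ 400 * p.a * p.t * (∑ i, sq (p.c i)) * (2 * C0) +
        S * ((1296 * (1 + C)) * C0 * (1 + p.bB + p.bD * p.R ^ (-2 : ℤ))) := add_le_add k1 k3
    _ = 800 * (C0 * (p.a * p.t * (∑ i, sq (p.c i)))) +
        (1296 * (1 + C)) * (C0 * (S * (1 + p.bB + p.bD * p.R ^ (-2 : ℤ)))) := by ring
    _ ≤ (1600 + 1296 * (1 + C)) * (C0 * (p.a * p.t * (∑ i, sq (p.c i)))) +
        (1600 + 1296 * (1 + C)) * (C0 * (S * (1 + p.bB + p.bD * p.R ^ (-2 : ℤ)))) := by
        gcongr <;> nlinarith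
    _ = _ := by ring

end Pool.Agent.Helper49_Pauli
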