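import Pool.Agent.Helper49_Pauli.Interface3

/-!
# Module MOM: moments of the fields
-/

open MeasureTheory Complex ProbabilityTheory

namespace Pool.Agent.Helper49_Pauli

namespace Mom

variable {ι : Type} [Fintype ι]

/-- sums of squares of linear forms, with a bound -/
structure SS (J : Type) [Fintype J] (S : EuclideanSpace ℝ ι → ℝ) (β : ℝ) : Prop where
  ex : ∃ l : J → (EuclideanSpace ℝ ι →ₗ[ℝ] ℝ), ∀ z, S z = ∑ j, l j z ^ 2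
  bd : ∀ z, S z ≤ β * ‖z‖ ^ 2
  nn : 0 ≤ β

lemma meas_sq (l : EuclideanSpace ℝ ι →ₗ[ℝ] ℝ) : Measurable fun z => l z ^ 2 := by
  have h : Continuous l := l.continuous_of_finiteDimensional
  exact (h.pow 2).measurable

lemma one (hg : GaussMomentStatement) {J : Type} [Fintype J] {S : EuclideanSpace ℝ ι → ℝ} {β : ℝ}
    (h : SS J S β) : ∫⁻ z, ENNReal.ofReal (S z) ∂stdGaussian (EuclideanSpace ℝ ι) ≤
      ENNReal.ofReal (Fintype.card J * β) := by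
  obtain ⟨l, hl⟩ := h.ex
  have hj : ∀ j z, l j z ^ 2 ≤ β * ‖z‖ ^ 2 := by
    intro j z
    refine le_trans ?_ (h.bd z)
    rw [hl z]
    exact Finset.single_le_sum (f := fun j => l j z ^ 2) (fun i _ => sq_nonneg _)
      (Finset.mem_univ j)
  have e : ∀ z, ENNReal.ofReal (S z) = ∑ j, ENNReal.ofReal (l j z ^ 2) := by
    intro z
    rw [hl z, ENNReal.ofReal_sum_of_nonneg fun i _ => sq_nonneg _]
  simp only [e]
  rw [lintegral_finsetSum _ fun j _ => (meas_sq (l j)).ennreal_ofReal]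
  calc ∑ j, ∫⁻ z, ENNReal.ofReal (l j z ^ 2) ∂stdGaussian (EuclideanSpace ℝ ι)
      ≤ ∑ _j : J, ENNReal.ofReal β := Finset.sum_le_sum fun j _ =>
        (hg ι (l j) (l j) β β h.nn h.nn (hj j) (hj j)).2.1
    _ = ENNReal.ofReal (Fintype.card J * β) := by
      rw [Finset.sum_const, Finset.card_univ, nsmul_eq_mul, ENNReal.ofReal_mul (by positivity),
        ENNReal.ofReal_natCast]

lemma two (hg : GaussMomentStatement) {J₁ J₂ : Type} [Fintype J₁] [Fintype J₂]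
    {S₁ S₂ : EuclideanSpace ℝ ι → ℝ} {β₁ β₂ : ℝ} (h₁ : SS J₁ S₁ β₁) (h₂ : SS J₂ S₂ β₂) :
    ∫⁻ z, ENNReal.ofReal (S₁ z * S₂ z) ∂stdGaussian (EuclideanSpace ℝ ι) ≤
      ENNReal.ofReal (Fintype.card J₁ * (Fintype.card J₂ * (3 * β₁ * β₂))) := by
  obtain ⟨l₁, hl₁⟩ := h₁.ex
  obtain ⟨l₂, hl₂⟩ := h₂.ex
  have hj₁ : ∀ j z, l₁ j z ^ 2 ≤ β₁ * ‖z‖ ^ 2 := by
    intro j z
    refine le_trans ?_ (h₁.bd z)
    rw [hl₁ z]
    exact Finset.single_le_sum (f := fun j => l₁ j z ^ 2) (fun i _ => sq_nonneg _)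
      (Finset.mem_univ j)
  have hj₂ : ∀ j z, l₂ j z ^ 2 ≤ β₂ * ‖z‖ ^ 2 := by
    intro j z
    refine le_trans ?_ (h₂.bd z)
    rw [hl₂ z]
    exact Finset.single_le_sum (f := fun j => l₂ j z ^ 2) (fun i _ => sq_nonneg _)
      (Finset.mem_univ j)
  have e : ∀ z, ENNReal.ofReal (S₁ z * S₂ z) =
      ∑ j₁, ∑ j₂, ENNReal.ofReal (l₁ j₁ z ^ 2 * l₂ j₂ z ^ 2) := by
    intro z
    rw [hl₁ z, hl₂ z, Finset.sum_mul_sum,
      ENNReal.ofReal_sum_of_nonneg fun i _ => Finset.sum_nonneg fun j _ => by positivity]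
    refine Finset.sum_congr rfl fun i _ => ?_
    rw [ENNReal.ofReal_sum_of_nonneg fun j _ => by positivity]
  have hm : ∀ j₁ j₂, Measurable fun z => ENNReal.ofReal (l₁ j₁ z ^ 2 * l₂ j₂ z ^ 2) :=
    fun j₁ j₂ => ((meas_sq (l₁ j₁)).mul (meas_sq (l₂ j₂))).ennreal_ofReal
  simp only [e]
  rw [lintegral_finsetSum _ fun j₁ _ => Finset.measurable_fun_sum _ fun j₂ _ => hm j₁ j₂]
  calc ∑ j₁, ∫⁻ z, ∑ j₂, ENNReal.ofReal (l₁ j₁ z ^ 2 * l₂ j₂ z ^ 2)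
        ∂stdGaussian (EuclideanSpace ℝ ι)
      ≤ ∑ _j₁ : J₁, ∑ _j₂ : J₂, ENNReal.ofReal (3 * β₁ * β₂) := by
        refine Finset.sum_le_sum fun j₁ _ => ?_
        rw [lintegral_finsetSum _ fun j₂ _ => hm j₁ j₂]
        exact Finset.sum_le_sum fun j₂ _ =>
          (hg ι (l₁ j₁) (l₂ j₂) β₁ β₂ h₁.nn h₂.nn (hj₁ j₁) (hj₂ j₂)).2.2
    _ = _ := by
      generalize 3 * β₁ * β₂ = b
      simp only [Finset.sum_const, Finset.card_univ, nsmul_eq_mul]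
      rw [ENNReal.ofReal_mul (p := (Fintype.card J₁ : ℝ)) (by positivity),
        ENNReal.ofReal_mul (p := (Fintype.card J₂ : ℝ)) (by positivity),
        ENNReal.ofReal_natCast, ENNReal.ofReal_natCast]

lemma ss_single {l : EuclideanSpace ℝ ι →ₗ[ℝ] ℝ} {β : ℝ} (hβ : 0 ≤ β)
    (h : ∀ z, l z ^ 2 ≤ β * ‖z‖ ^ 2) : SS Unit (fun z => l z ^ 2) β :=
  ⟨⟨fun _ => l, fun z => by simp⟩, h, hβ⟩

/-- linear forms in the field coefficients -/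
noncomputable def lin (k : ι → X3) (T : EuclideanSpace ℝ ι →ₗ[ℝ] EuclideanSpace ℝ ι)
    (b : ι → ℝ) : EuclideanSpace ℝ ι →ₗ[ℝ] ℝ where
  toFun z := ∑ i, qof k (fun i => T z i) i * b i
  map_add' z w := by
    rw [← Finset.sum_add_distrib]
    refine Finset.sum_congr rfl fun i _ => ?_
    simp only [qof, map_add, PiLp.add_apply]
    ring
  map_smul' r z := by
    simp only [RingHom.id_apply, smul_eq_mul]
    rw [Finset.mul_sum]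
    refine Finset.sum_congr rfl fun i _ => ?_
    simp only [qof, map_smul, PiLp.smul_apply, smul_eq_mul]
    ring

lemma lin_apply (k : ι → X3) (T : EuclideanSpace ℝ ι →ₗ[ℝ] EuclideanSpace ℝ ι)
    (b : ι → ℝ) (z : EuclideanSpace ℝ ι) :
    lin k T b z = ∑ i, qof k (fun i => T z i) i * b i := rfl

variable (k c : ι → X3) (θ : ι → ℝ) (t : ℝ) (T : EuclideanSpace ℝ ι →ₗ[ℝ] EuclideanSpace ℝ ι)
  (x : X3)

lemma exA : ∃ l : Fin 3 → (EuclideanSpace ℝ ι →ₗ[ℝ] ℝ), ∀ z,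
    sA k c θ (qof k fun i => T z i) x = ∑ j, l j z ^ 2 := by
  refine ⟨fun n => lin k T fun i => Real.cos (ph k θ x i) * c i n, fun z => ?_⟩
  refine Finset.sum_congr rfl fun n _ => ?_
  rw [lin_apply]
  congr 1
  exact Finset.sum_congr rfl fun i _ => by ring

lemma exAl : ∃ l : Fin 3 → (EuclideanSpace ℝ ι →ₗ[ℝ] ℝ), ∀ z,
    sAl k c θ t (qof k fun i => T z i) x = ∑ j, l j z ^ 2 := by
  refine ⟨fun n => lin k T fun i =>
    Real.exp (-(t * sq (k i))) * Real.cos (ph k θ x i) * c i n, fun z => ?_⟩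
  refine Finset.sum_congr rfl fun n _ => ?_
  rw [lin_apply]
  congr 1
  exact Finset.sum_congr rfl fun i _ => by ring

lemma exB : ∃ l : Fin 3 × Fin 3 → (EuclideanSpace ℝ ι →ₗ[ℝ] ℝ), ∀ z,
    sB k c θ t (qof k fun i => T z i) x = ∑ j, l j z ^ 2 := by
  refine ⟨fun j => lin k T fun i =>
    vt t (sq (k i)) * k i j.1 * Real.sin (ph k θ x i) * c i j.2, fun z => ?_⟩
  rw [Fintype.sum_prod_type]
  refine Finset.sum_congr rfl fun p _ => Finset.sum_congr rfl fun n _ => ?_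
  rw [lin_apply]
  congr 1
  exact Finset.sum_congr rfl fun i _ => by ring

lemma exBl : ∃ l : Fin 3 × Fin 3 → (EuclideanSpace ℝ ι →ₗ[ℝ] ℝ), ∀ z,
    sBl k c θ t (qof k fun i => T z i) x = ∑ j, l j z ^ 2 := by
  refine ⟨fun j => lin k T fun i => vt t (sq (k i)) * Real.exp (-(t * sq (k i))) * k i j.1 *
    Real.sin (ph k θ x i) * c i j.2, fun z => ?_⟩
  rw [Fintype.sum_prod_type]
  refine Finset.sum_congr rfl fun p _ => Finset.sum_congr rfl fun n _ => ?_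
  rw [lin_apply]
  congr 1
  exact Finset.sum_congr rfl fun i _ => by ring

lemma exD : ∃ l : Fin 3 × Fin 3 × Fin 3 → (EuclideanSpace ℝ ι →ₗ[ℝ] ℝ), ∀ z,
    sD k c θ t (qof k fun i => T z i) x = ∑ j, l j z ^ 2 := by
  refine ⟨fun j => lin k T fun i => vt t (sq (k i)) ^ 2 * (k i j.1 * k i j.2.1) *
    Real.cos (ph k θ x i) * c i j.2.2, fun z => ?_⟩
  rw [Fintype.sum_prod_type]
  refine Finset.sum_congr rfl fun p _ => ?_
  rw [Fintype.sum_prod_type]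
  refine Finset.sum_congr rfl fun q _ => Finset.sum_congr rfl fun n _ => ?_
  rw [lin_apply]
  congr 1
  exact Finset.sum_congr rfl fun i _ => by ring

/-- transfer of a bound by a weighted norm to a bound by the norm -/
lemma ss_mk {J : Type} [Fintype J] {S V : EuclideanSpace ℝ ι → ℝ} {b κ : ℝ} (hκ : 0 < κ)
    (hb : 0 ≤ b) (hex : ∃ l : J → (EuclideanSpace ℝ ι →ₗ[ℝ] ℝ), ∀ z, S z = ∑ j, l j z ^ 2)
    (h1 : ∀ z, S z ≤ b * V z) (h2 : ∀ z, κ * V z ≤ ‖z‖ ^ 2) : SS J S (κ⁻¹ * b) where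
  ex := hex
  bd z := by
    refine (h1 z).trans ?_
    have h3 : V z ≤ κ⁻¹ * ‖z‖ ^ 2 := by
      rw [inv_mul_eq_div, le_div_iff₀ hκ]
      linarith [h2 z]
    calc b * V z ≤ b * (κ⁻¹ * ‖z‖ ^ 2) := mul_le_mul_of_nonneg_left h3 hb
      _ = κ⁻¹ * b * ‖z‖ ^ 2 := by ring
  nn := by positivity

end Mom

open Mom in
/-- MOM. -/
theorem mom (hK : KmatStatement) (hker : KernStatement) (hg : GaussMomentStatement) :
    MomStatement := by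
  obtain ⟨CK, -, hK⟩ := hK
  obtain ⟨C0, hC0, hker⟩ := hker
  refine ⟨243 * (C0 ^ 2 + C0), by positivity, ?_⟩
  intro ι _ p T hT x
  obtain ⟨-, hquad, hW, hWl, -, -⟩ := hK ι p
  have ht : 0 < p.t := lt_of_lt_of_le p.hτ p.hτt
  have hτ := p.hτ
  have hκ := p.hκ
  have hκ0 := p.hκ0
  set q : EuclideanSpace ℝ ι → (ι → ℝ) := fun z => qof p.k fun i => T z i with hq
  have hV : ∀ z, p.κ * p.W (q z) ≤ ‖z‖ ^ 2 := by
    intro z
    have h1 := hT z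
    rw [hquad] at h1
    have h2 := mul_nonneg hκ0.le (hWl (q z))
    have h3 := sq_nonneg ‖T z‖
    linarith
  have hVl : ∀ z, p.κ0 * p.Wl (q z) ≤ ‖z‖ ^ 2 := by
    intro z
    have h1 := hT z
    rw [hquad] at h1
    have h2 := mul_nonneg hκ.le (hW (q z))
    have h3 := sq_nonneg ‖T z‖
    linarith
  have hk := fun z => hker ι p.k p.c p.θ (q z) p.R p.τ p.t (p.W (q z)) (p.Wl (q z)) x p.hR hτ
    p.hτt p.htR p.hk rfl rfl
  have hw : p.w x = 1 + sq x / p.R ^ 2 := rfl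
  rw [← hw] at hk
  have hw2 : 0 ≤ p.w x ^ 2 := sq_nonneg _
  -- powers
  have pA : 0 < p.τ ^ (-(3 / 2) : ℝ) := Real.rpow_pos_of_pos hτ _
  have pB : 0 < p.τ ^ (-(1 / 2) : ℝ) := Real.rpow_pos_of_pos hτ _
  have pD : 0 < p.t ^ ((1 / 2) : ℝ) := Real.rpow_pos_of_pos ht _
  have pAl : 0 < p.t ^ (-(3 / 2) : ℝ) := Real.rpow_pos_of_pos ht _
  have pBl : 0 < p.t ^ (-(1 / 2) : ℝ) := Real.rpow_pos_of_pos ht _
  have sA' : SS (Fin 3) (fun z => p.fsA (fun i => T z i) x)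
      (p.κ⁻¹ * (C0 * p.τ ^ (-(3 / 2) : ℝ) * p.w x ^ 2)) :=
    ss_mk (V := fun z => p.W (q z)) hκ (by positivity) (exA p.k p.c p.θ T x)
      (fun z => (hk z).1) hV
  have sB' : SS (Fin 3 × Fin 3) (fun z => p.fsB (fun i => T z i) x)
      (p.κ⁻¹ * (C0 * p.τ ^ (-(1 / 2) : ℝ) * p.w x ^ 2)) :=
    ss_mk (V := fun z => p.W (q z)) hκ (by positivity) (exB p.k p.c p.θ p.t T x)
      (fun z => (hk z).2.1) hV
  have sD' : SS (Fin 3 × Fin 3 × Fin 3) (fun z => p.fsD (fun i => T z i) x)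
      (p.κ⁻¹ * (C0 * p.t ^ ((1 / 2) : ℝ) * p.w x ^ 2)) :=
    ss_mk (V := fun z => p.W (q z)) hκ (by positivity) (exD p.k p.c p.θ p.t T x)
      (fun z => (hk z).2.2.1) hV
  have sAl' : SS (Fin 3) (fun z => p.fsAl (fun i => T z i) x)
      (p.κ0⁻¹ * (C0 * p.t ^ (-(3 / 2) : ℝ) * p.w x ^ 2)) :=
    ss_mk (V := fun z => p.Wl (q z)) hκ0 (by positivity) (exAl p.k p.c p.θ p.t T x)
      (fun z => (hk z).2.2.2.1) hVl
  have sBl' : SS (Fin 3 × Fin 3) (fun z => p.fsBl (fun i => T z i) x)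
      (p.κ0⁻¹ * (C0 * p.t ^ (-(1 / 2) : ℝ) * p.w x ^ 2)) :=
    ss_mk (V := fun z => p.Wl (q z)) hκ0 (by positivity) (exBl p.k p.c p.θ p.t T x)
      (fun z => (hk z).2.2.2.2) hVl
  have c3 : (Fintype.card (Fin 3) : ℝ) = 3 := by norm_num
  have c9 : (Fintype.card (Fin 3 × Fin 3) : ℝ) = 9 := by
    rw [Fintype.card_prod, Fintype.card_fin]; norm_num
  have c27 : (Fintype.card (Fin 3 × Fin 3 × Fin 3) : ℝ) = 27 := by
    rw [Fintype.card_prod, Fintype.card_prod, Fintype.card_fin]; norm_num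
  have c1 : (Fintype.card Unit : ℝ) = 1 := by norm_num
  have hAB : p.τ ^ (-(3 / 2) : ℝ) * p.τ ^ (-(1 / 2) : ℝ) = p.τ ^ (-2 : ℝ) := by
    rw [← Real.rpow_add hτ]; norm_num
  have hki : 0 < p.κ⁻¹ := inv_pos.2 hκ
  have hk0i : 0 < p.κ0⁻¹ := inv_pos.2 hκ0
  have hCC : 0 ≤ C0 ^ 2 := sq_nonneg _
  refine ⟨?_, ?_, ?_, ?_, ?_, ?_, ?_⟩
  · refine (one hg sAl').trans (ENNReal.ofReal_le_ofReal ?_)
    rw [c3]
    have h : 0 ≤ p.κ0⁻¹ * p.t ^ (-(3 / 2) : ℝ) * p.w x ^ 2 := by positivity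
    nlinarith [mul_nonneg hC0.le h, mul_nonneg hCC h]
  · refine (one hg sBl').trans (ENNReal.ofReal_le_ofReal ?_)
    rw [c9]
    have h : 0 ≤ p.κ0⁻¹ * p.t ^ (-(1 / 2) : ℝ) * p.w x ^ 2 := by positivity
    nlinarith [mul_nonneg hC0.le h, mul_nonneg hCC h]
  · refine (one hg sB').trans (ENNReal.ofReal_le_ofReal ?_)
    rw [c9]
    have h : 0 ≤ p.κ⁻¹ * p.τ ^ (-(1 / 2) : ℝ) * p.w x ^ 2 := by positivity
    nlinarith [mul_nonneg hC0.le h, mul_nonneg hCC h]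
  · refine (one hg sD').trans (ENNReal.ofReal_le_ofReal ?_)
    rw [c27]
    have h : 0 ≤ p.κ⁻¹ * p.t ^ ((1 / 2) : ℝ) * p.w x ^ 2 := by positivity
    nlinarith [mul_nonneg hC0.le h, mul_nonneg hCC h]
  · refine (two hg sA' sB').trans (ENNReal.ofReal_le_ofReal ?_)
    rw [c3, c9, ← hAB]
    have h : 0 ≤ p.κ⁻¹ ^ 2 * (p.τ ^ (-(3 / 2) : ℝ) * p.τ ^ (-(1 / 2) : ℝ)) * p.w x ^ 4 := by
      have : 0 ≤ p.w x ^ 4 := by positivity
      positivity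
    have e : (3 : ℝ) * (9 * (3 * (p.κ⁻¹ * (C0 * p.τ ^ (-(3 / 2) : ℝ) * p.w x ^ 2)) *
        (p.κ⁻¹ * (C0 * p.τ ^ (-(1 / 2) : ℝ) * p.w x ^ 2)))) =
        81 * (C0 ^ 2 * (p.κ⁻¹ ^ 2 * (p.τ ^ (-(3 / 2) : ℝ) * p.τ ^ (-(1 / 2) : ℝ)) *
          p.w x ^ 4)) := by ring
    rw [e]
    have e2 : 243 * (C0 ^ 2 + C0) * p.κ⁻¹ ^ 2 * (p.τ ^ (-(3 / 2) : ℝ) * p.τ ^ (-(1 / 2) : ℝ)) *
        p.w x ^ 4 = 243 * (C0 ^ 2 * (p.κ⁻¹ ^ 2 *
          (p.τ ^ (-(3 / 2) : ℝ) * p.τ ^ (-(1 / 2) : ℝ)) * p.w x ^ 4)) +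
        243 * (C0 * (p.κ⁻¹ ^ 2 * (p.τ ^ (-(3 / 2) : ℝ) * p.τ ^ (-(1 / 2) : ℝ)) *
          p.w x ^ 4)) := by ring
    rw [e2]
    linarith [mul_nonneg hC0.le h, mul_nonneg hCC h]
  · refine (two hg sA' sD').trans (ENNReal.ofReal_le_ofReal ?_)
    rw [c3, c27]
    have h : 0 ≤ p.κ⁻¹ ^ 2 * (p.τ ^ (-(3 / 2) : ℝ) * p.t ^ ((1 / 2) : ℝ)) * p.w x ^ 4 := by
      have : 0 ≤ p.w x ^ 4 := by positivity
      positivity
    have e : (3 : ℝ) * (27 * (3 * (p.κ⁻¹ * (C0 * p.τ ^ (-(3 / 2) : ℝ) * p.w x ^ 2)) *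
        (p.κ⁻¹ * (C0 * p.t ^ ((1 / 2) : ℝ) * p.w x ^ 2)))) =
        243 * (C0 ^ 2 * (p.κ⁻¹ ^ 2 * (p.τ ^ (-(3 / 2) : ℝ) * p.t ^ ((1 / 2) : ℝ)) *
          p.w x ^ 4)) := by ring
    rw [e]
    have e2 : 243 * (C0 ^ 2 + C0) * p.κ⁻¹ ^ 2 * (p.τ ^ (-(3 / 2) : ℝ) * p.t ^ ((1 / 2) : ℝ)) *
        p.w x ^ 4 = 243 * (C0 ^ 2 * (p.κ⁻¹ ^ 2 *
          (p.τ ^ (-(3 / 2) : ℝ) * p.t ^ ((1 / 2) : ℝ)) * p.w x ^ 4)) +
        243 * (C0 * (p.κ⁻¹ ^ 2 * (p.τ ^ (-(3 / 2) : ℝ) * p.t ^ ((1 / 2) : ℝ)) *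
          p.w x ^ 4)) := by ring
    rw [e2]
    linarith [mul_nonneg hC0.le h, mul_nonneg hCC h]
  · intro l β hβ hl
    refine ⟨?_, ?_⟩
    · refine (two hg (ss_single hβ hl) sB').trans (ENNReal.ofReal_le_ofReal ?_)
      rw [c1, c9]
      have h : 0 ≤ β * (p.κ⁻¹ * p.τ ^ (-(1 / 2) : ℝ) * p.w x ^ 2) := by positivity
      nlinarith [mul_nonneg hC0.le h, mul_nonneg hCC h]
    · refine (two hg (ss_single hβ hl) sD').trans (ENNReal.ofReal_le_ofReal ?_)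
      rw [c1, c27]
      have h : 0 ≤ β * (p.κ⁻¹ * p.t ^ ((1 / 2) : ℝ) * p.w x ^ 2) := by positivity
      nlinarith [mul_nonneg hC0.le h, mul_nonneg hCC h]

end Pool.Agent.Helper49_Pauli
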